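import Pool.Agent.H967R3.Pen.Forms

/-!
# Positive words in a twist matrix and an inverse twist matrix are not powers of `F`
-/

set_option autoImplicit false

namespace Pool.Agent.H967R3.Pen

open Matrix

lemma rot_gen (n : ℤ) (l1 l2 : List Bool) {Q : Frm} (h : Q.act (word n (l1 ++ l2)) = Q) :
    (Q.act (word n l1)).act (word n (l2 ++ l1)) = Q.act (word n l1) := by
  rw [← Frm.act_mul, word_append, ← Matrix.mul_assoc, ← word_append, Frm.act_mul, h]

lemma split_word (l : List Bool) : (∃ l1 l2, l = l1 ++ false :: true :: l2) ∨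
    ∃ i j, l = List.replicate i true ++ List.replicate j false := by
  induction l with
  | nil => exact Or.inr ⟨0, 0, rfl⟩
  | cons y l ih =>
    rcases ih with ⟨l1, l2, rfl⟩ | ⟨i, j, rfl⟩
    · exact Or.inl ⟨y :: l1, l2, rfl⟩
    · cases y
      · cases i with
        | zero => exact Or.inr ⟨0, j + 1, by simp [List.replicate_succ]⟩
        | succ i => exact Or.inl ⟨[], List.replicate i true ++ List.replicate j false, by
            simp [List.replicate_succ]⟩
      · exact Or.inr ⟨i + 1, j, by simp [List.replicate_succ]⟩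

lemma no_inv_aux {n : ℤ} (hn : 1 ≤ n) (m : List Bool) {Q : Frm} (hd : Q.disc = 13 * n ^ 2)
    (h : Q.act (word n (true :: (m ++ [false]))) = Q) : False := by
  have hd0 : Q.disc ≠ 0 := by rw [hd]; positivity
  have hs := sign_word hn (by simp) (by simp) hd0 h
  rcases lt_trichotomy Q.A 0 with hA | hA | hA
  · refine no_inv_pos hn m (Q := Q.neg) (by rw [Frm.disc_neg, hd]) ?_ ?_
    · simpa [Frm.neg] using hA
    · rw [Frm.neg_act, h]
  · rw [hA] at hs; simp at hs
  · exact no_inv_pos hn m hd hA h

lemma no_inv {n : ℤ} (hn : 1 ≤ n) {l : List Bool} (ht : true ∈ l) (hf : false ∈ l) {Q : Frm}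
    (hd : Q.disc = 13 * n ^ 2) (h : Q.act (word n l) = Q) : False := by
  rcases split_word l with ⟨l1, l2, rfl⟩ | ⟨i, j, rfl⟩
  · have h' : Q.act (word n ((l1 ++ [false]) ++ (true :: l2))) = Q := by simpa using h
    have h2 := rot_gen n _ _ h'
    refine no_inv_aux hn (l2 ++ l1) (Q := Q.act (word n (l1 ++ [false]))) ?_ ?_
    · rw [Frm.disc_act, det_word, hd]; ring
    · simpa using h2
  · cases i with
    | zero => simp at ht
    | succ i =>
      cases j with
      | zero => simp at hf
      | succ j =>
        refine no_inv_aux hn (List.replicate i true ++ List.replicate j false) hd ?_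
        have e : true :: ((List.replicate i true ++ List.replicate j false) ++ [false]) =
            List.replicate (i + 1) true ++ List.replicate (j + 1) false := by
          rw [List.replicate_succ, List.replicate_succ' (n := j)]
          simp
        rw [e]; exact h

/-- The nilpotent part of the twist matrix of `(a, c)`. -/
def nil (a c : ℤ) : Matrix (Fin 2) (Fin 2) ℤ := !![-(2 * a * c), 2 * a ^ 2; -(2 * c ^ 2), 2 * a * c]

/-- The matrix of the Dehn twist about the curve of slope `(a, c)`. -/
def T (a c : ℤ) : Matrix (Fin 2) (Fin 2) ℤ := 1 + nil a c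

/-- The matrix of the inverse Dehn twist about the curve of slope `(a, c)`. -/
def Tinv (a c : ℤ) : Matrix (Fin 2) (Fin 2) ℤ := 1 - nil a c

lemma nil_mul (a c b d : ℤ) (h : a * d - c * b = 0) : nil a c * nil b d = 0 := by
  have h1 : a * d = c * b := by linarith
  ext i j
  fin_cases i <;> fin_cases j <;>
    simp [nil, Matrix.mul_apply, Fin.sum_univ_two]
  · linear_combination (-(4 * a * d)) * h1
  · linear_combination (4 * a * b) * h1
  · linear_combination (-4 * c * d) * h1
  · linear_combination (4 * c * b) * h1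

lemma nil_sq (a c : ℤ) : nil a c * nil a c = 0 := nil_mul a c a c (by ring)

lemma trace_nil (a c : ℤ) : (nil a c).trace = 0 := by
  simp [nil, Matrix.trace, Fin.sum_univ_two]

lemma T_mul_Tinv (a c : ℤ) : T a c * Tinv a c = 1 := by
  rw [T, Tinv, add_mul, mul_sub, mul_sub, nil_sq]; simp

lemma Tinv_mul_T (a c : ℤ) : Tinv a c * T a c = 1 := by
  rw [T, Tinv, sub_mul, mul_add, mul_add, nil_sq]; simp

/-- The two letters: the twist about `(a, c)` and the inverse twist about `(b, d)`. -/
def sletter (a c b d : ℤ) : Bool → Matrix (Fin 2) (Fin 2) ℤ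
  | true => T a c
  | false => Tinv b d

/-- A word in the two letters. -/
def sword (a c b d : ℤ) (l : List Bool) : Matrix (Fin 2) (Fin 2) ℤ :=
  (l.map (sletter a c b d)).prod

lemma sword_cons (a c b d : ℤ) (y : Bool) (l : List Bool) :
    sword a c b d (y :: l) = sletter a c b d y * sword a c b d l := by
  simp [sword]

lemma det_T (a c : ℤ) : (T a c).det = 1 := by
  simp [T, nil, Matrix.det_fin_two]; ring

lemma det_Tinv (a c : ℤ) : (Tinv a c).det = 1 := by
  simp [Tinv, nil, Matrix.det_fin_two]; ring

lemma det_sword (a c b d : ℤ) (l : List Bool) : (sword a c b d l).det = 1 := by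
  induction l with
  | nil => simp [sword]
  | cons y l ih =>
    rw [sword_cons, Matrix.det_mul, ih]
    cases y
    · simp [sletter, det_Tinv]
    · simp [sletter, det_T]

/-- Parallel curves: the trace of a word is `2`. -/
lemma trace_par (a c b d : ℤ) (h : a * d - c * b = 0) (l : List Bool) :
    (sword a c b d l).trace = 2 := by
  have h' : b * c - d * a = 0 := by linarith
  have key : ∃ i j : ℤ, sword a c b d l = 1 + i • nil a c + j • nil b d := by
    induction l with
    | nil => exact ⟨0, 0, by simp [sword]⟩
    | cons y l ih =>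
      obtain ⟨i, j, ih⟩ := ih
      rw [sword_cons, ih]
      cases y
      · refine ⟨i, j - 1, ?_⟩
        simp only [sletter, Tinv, sub_mul, mul_add, mul_smul_comm, nil_mul b d a c h', nil_sq,
          one_mul, mul_one]
        module
      · refine ⟨i + 1, j, ?_⟩
        simp only [sletter, T, add_mul, mul_add, mul_smul_comm, nil_mul a c b d h, nil_sq,
          one_mul, mul_one]
        module
  obtain ⟨i, j, h⟩ := key
  rw [h, Matrix.trace_add, Matrix.trace_add, Matrix.trace_smul, Matrix.trace_smul, trace_nil,
    trace_nil]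
  simp [Matrix.trace]

/-- Only one letter occurs: the trace is `2`. -/
lemma trace_single (a c b d : ℤ) (y : Bool) (l : List Bool) (h : ∀ z ∈ l, z = y) :
    (sword a c b d l).trace = 2 := by
  cases y
  · have : sword a c b d l = sword b d b d l := by
      unfold sword
      congr 1
      apply List.map_congr_left
      intro z hz
      rw [h z hz]; rfl
    rw [this]
    exact trace_par b d b d (by ring) l
  · have : sword a c b d l = sword a c a c l := by
      unfold sword
      congr 1
      apply List.map_congr_left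
      intro z hz
      rw [h z hz]; rfl
    rw [this]
    exact trace_par a c a c (by ring) l

lemma sletter_mul (a c b d : ℤ) (y : Bool) :
    sletter a c b d y * !![a, b; c, d] = !![a, b; c, d] * letter (a * d - c * b) y := by
  cases y <;> ext i j <;> fin_cases i <;> fin_cases j <;>
    simp [sletter, T, Tinv, nil, letter, Matrix.mul_apply, Fin.sum_univ_two, Matrix.one_apply] <;>
    ring

lemma sword_mul (a c b d : ℤ) (l : List Bool) :
    sword a c b d l * !![a, b; c, d] = !![a, b; c, d] * word (a * d - c * b) l := by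
  induction l with
  | nil => simp [sword, word]
  | cons y l ih =>
    rw [sword_cons, word_cons, Matrix.mul_assoc, ih, ← Matrix.mul_assoc, sletter_mul,
      Matrix.mul_assoc]

/-- The form `s^2 - 3 s t - t^2`. -/
def Q0 : Frm := ⟨1, -3, -1⟩

lemma sword_no_inv_pos (a c b d : ℤ) (hn : 0 < a * d - c * b) {l : List Bool} (ht : true ∈ l)
    (hf : false ∈ l) (h : Q0.act (sword a c b d l) = Q0) : False := by
  refine no_inv (n := a * d - c * b) (by omega) ht hf (Q := Q0.act !![a, b; c, d]) ?_ ?_
  · rw [Frm.disc_act, Matrix.det_fin_two_of]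
    simp only [Q0, Frm.disc]; ring
  · rw [← Frm.act_mul, ← sword_mul, Frm.act_mul, h]

lemma sword_neg (a c b d : ℤ) (l : List Bool) : sword a c (-b) (-d) l = sword a c b d l := by
  unfold sword
  congr 1
  apply List.map_congr_left
  intro z _
  cases z
  · simp [sletter, Tinv, nil]
  · rfl

lemma sword_no_inv (a c b d : ℤ) (hn : a * d - c * b ≠ 0) {l : List Bool} (ht : true ∈ l)
    (hf : false ∈ l) (h : Q0.act (sword a c b d l) = Q0) : False := by
  rcases lt_or_gt_of_ne hn with h0 | h0
  · refine sword_no_inv_pos a c (-b) (-d) (by linarith) ht hf ?_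
    rw [sword_neg]; exact h
  · exact sword_no_inv_pos a c b d h0 ht hf h

/-- The matrix of the orientation-reversing pseudo-Anosov class. -/
def F : Matrix (Fin 2) (Fin 2) ℤ := !![-3, -1; -1, 0]

/-- Its square. -/
def G : Matrix (Fin 2) (Fin 2) ℤ := !![10, 3; 3, 1]

lemma F_sq : F ^ 2 = G := by
  rw [pow_two]
  ext i j
  fin_cases i <;> fin_cases j <;> simp [F, G, Matrix.mul_apply, Fin.sum_univ_two]

lemma det_F : F.det = -1 := by simp [F, Matrix.det_fin_two]

lemma Q0_act_G (m : ℕ) : Q0.act (G ^ m) = Q0 := by
  induction m with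
  | zero => simp [Frm.act_one]
  | succ m ih =>
    rw [pow_succ, Frm.act_mul, ih]
    ext <;> simp [Frm.act, Q0, G]

lemma G_pow_entries (m : ℕ) : 1 ≤ (G ^ m) 0 0 ∧ 0 ≤ (G ^ m) 0 1 ∧ 0 ≤ (G ^ m) 1 0 ∧
    1 ≤ (G ^ m) 1 1 := by
  induction m with
  | zero => simp
  | succ m ih =>
    obtain ⟨h1, h2, h3, h4⟩ := ih
    rw [pow_succ]
    refine ⟨?_, ?_, ?_, ?_⟩ <;> simp [G, Matrix.mul_apply, Fin.sum_univ_two] at * <;> linarith

lemma G_pow_trace (m : ℕ) (hm : 1 ≤ m) : 3 ≤ (G ^ m).trace := by
  obtain ⟨m, rfl⟩ : ∃ m', m = m' + 1 := ⟨m - 1, by omega⟩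
  obtain ⟨h1, h2, h3, h4⟩ := G_pow_entries m
  rw [pow_succ]
  simp only [Matrix.trace, Fin.sum_univ_two, Matrix.diag_apply]
  have e1 : (G ^ m * G) 0 0 = (G ^ m) 0 0 * 10 + (G ^ m) 0 1 * 3 := by
    simp [G, Matrix.mul_apply, Fin.sum_univ_two]
  have e2 : (G ^ m * G) 1 1 = (G ^ m) 1 0 * 3 + (G ^ m) 1 1 := by
    simp [G, Matrix.mul_apply, Fin.sum_univ_two]
  rw [e1, e2]
  linarith

/-- A power of `F` of determinant one is a power of `G`. -/
lemma even_of_det {k : ℕ} (h : (F ^ k).det = 1) (hk : 1 ≤ k) : ∃ m, 1 ≤ m ∧ F ^ k = G ^ m := by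
  rw [Matrix.det_pow, det_F] at h
  have he : Even k := by
    by_contra hodd
    rw [Nat.not_even_iff_odd] at hodd
    rw [hodd.neg_one_pow] at h
    norm_num at h
  obtain ⟨m, rfl⟩ := he
  refine ⟨m, by omega, ?_⟩
  rw [← two_mul, pow_mul, F_sq]

/-- No word in a twist matrix and an inverse twist matrix is, up to sign, a positive power
of `F`. -/
theorem sword_ne (a c b d : ℤ) (l : List Bool) (k : ℕ) (hk : 1 ≤ k) :
    sword a c b d l ≠ F ^ k ∧ sword a c b d l ≠ -F ^ k := by
  have main : ∀ M : Matrix (Fin 2) (Fin 2) ℤ, sword a c b d l = M →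
      (M = F ^ k ∨ M = -F ^ k) → False := by
    intro M hM hor
    have hdet : M.det = 1 := by rw [← hM]; exact det_sword a c b d l
    have hdF : (F ^ k).det = 1 := by
      rcases hor with h | h
      · rw [← h]; exact hdet
      · rw [h, Matrix.det_neg] at hdet
        simpa using hdet
    obtain ⟨m, hm1, hm⟩ := even_of_det hdF hk
    rw [hm] at hor
    have htr := G_pow_trace m hm1
    have hne : M.trace ≠ 2 := by
      rcases hor with h | h
      · rw [h]; omega
      · rw [h, Matrix.trace_neg]; omega
    have hinv : Q0.act M = Q0 := by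
      rcases hor with h | h
      · rw [h]; exact Q0_act_G m
      · rw [h]
        have : Q0.act (-(G ^ m)) = Q0.act (G ^ m) := by
          ext <;> simp [Frm.act]
        rw [this]; exact Q0_act_G m
    by_cases hn : a * d - c * b = 0
    · exact hne (by rw [← hM]; exact trace_par a c b d hn l)
    · by_cases ht : true ∈ l
      · by_cases hf : false ∈ l
        · exact sword_no_inv a c b d hn ht hf (by rw [hM]; exact hinv)
        · refine hne ?_
          rw [← hM]
          refine trace_single a c b d true l ?_
          intro z hz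
          cases z
          · exact absurd hz hf
          · rfl
      · refine hne ?_
        rw [← hM]
        refine trace_single a c b d false l ?_
        intro z hz
        cases z
        · rfl
        · exact absurd hz ht
  exact ⟨fun h => main _ h (Or.inl rfl), fun h => main _ h (Or.inr rfl)⟩

end Pool.Agent.H967R3.Pen
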