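import Pool.Agent.H967R3.Pen.Defs
import Pool.Agent.H967R3.Pen.Words

/-!
# The affine action of parity preserving automorphisms of the free group of rank three

`E` is a central extension (by `ℤ`) of the pillowcase group `ℤ² ⋊ {±1}`.
-/

set_option autoImplicit false

namespace Pool.Agent.H967R3.Pen

open Matrix

/-- Elements `(b, e, z)`: translation part `b = (b1, b2)`, sign `e`, central part `z`. -/
@[ext] structure E where
  b1 : ℤ
  b2 : ℤ
  e : ℤˣ
  z : ℤ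

namespace E

instance : Mul E := ⟨fun g h => ⟨g.b1 + g.e * h.b1, g.b2 + g.e * h.b2, g.e * h.e,
  g.z + h.z + (g.b1 * (g.e * h.b2) - g.b2 * (g.e * h.b1))⟩⟩

instance : One E := ⟨⟨0, 0, 1, 0⟩⟩

instance : Inv E := ⟨fun g => ⟨-(g.e * g.b1), -(g.e * g.b2), g.e, -g.z⟩⟩

@[simp] lemma mul_b1 (g h : E) : (g * h).b1 = g.b1 + g.e * h.b1 := rfl
@[simp] lemma mul_b2 (g h : E) : (g * h).b2 = g.b2 + g.e * h.b2 := rfl
@[simp] lemma mul_e (g h : E) : (g * h).e = g.e * h.e := rfl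
@[simp] lemma mul_z (g h : E) :
    (g * h).z = g.z + h.z + (g.b1 * (g.e * h.b2) - g.b2 * (g.e * h.b1)) := rfl
@[simp] lemma one_b1 : (1 : E).b1 = 0 := rfl
@[simp] lemma one_b2 : (1 : E).b2 = 0 := rfl
@[simp] lemma one_e : (1 : E).e = 1 := rfl
@[simp] lemma one_z : (1 : E).z = 0 := rfl
@[simp] lemma inv_b1 (g : E) : (g⁻¹).b1 = -(g.e * g.b1) := rfl
@[simp] lemma inv_b2 (g : E) : (g⁻¹).b2 = -(g.e * g.b2) := rfl
@[simp] lemma inv_e (g : E) : (g⁻¹).e = g.e := rfl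
@[simp] lemma inv_z (g : E) : (g⁻¹).z = -g.z := rfl

lemma usq (e : ℤˣ) : (e : ℤ) * e = 1 := by
  rcases Int.units_eq_one_or e with h | h <;> simp [h]

instance : Group E where
  mul_assoc g h k := by
    have hg := usq g.e
    ext
    · simp; ring
    · simp; ring
    · simp [mul_assoc]
    · simp only [mul_z, mul_b1, mul_b2, mul_e, Units.val_mul]
      linear_combination (-(h.b1 * (h.e : ℤ) * k.b2) + h.b2 * (h.e : ℤ) * k.b1) * (-hg)
  one_mul g := by ext <;> simp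
  mul_one g := by ext <;> simp
  inv_mul_cancel g := by
    have hg := usq g.e
    ext
    · simp
    · simp
    · simp only [mul_e, inv_e, one_e, Units.val_mul, Units.val_one, hg]
    · simp; ring

/-- The sign homomorphism. -/
def sgn : E →* ℤˣ where
  toFun g := g.e
  map_one' := rfl
  map_mul' _ _ := rfl

lemma conj_b1 (h g : E) (hg : g.e = -1) : (h * g * h⁻¹).b1 = 2 * h.b1 + h.e * g.b1 := by
  have := usq h.e
  simp [hg]
  linear_combination h.b1 * this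

lemma conj_b2 (h g : E) (hg : g.e = -1) : (h * g * h⁻¹).b2 = 2 * h.b2 + h.e * g.b2 := by
  have := usq h.e
  simp [hg]
  linear_combination h.b2 * this

lemma conj_z (h g : E) (hg : g.e = -1) : (h * g * h⁻¹).z = g.z := by
  have := usq h.e
  simp [hg]
  linear_combination (h.e * (g.b1 * h.b2 - g.b2 * h.b1)) * this

lemma inv_mul3_z (g0 g1 g2 : E) (h0 : g0.e = -1) (h1 : g1.e = -1) (h2 : g2.e = -1) :
    ((g0 * g1 * g2)⁻¹).z + g0.z + g1.z + g2.z =
      (g1.b1 - g0.b1) * (g2.b2 - g1.b2) - (g1.b2 - g0.b2) * (g2.b1 - g1.b1) := by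
  simp [h0, h1, h2]
  ring

end E

/-- The homomorphism to the extension of the pillowcase group: the peripheral loops go to
point reflections. -/
def Pi : F3 →* E := FreeGroup.lift ![⟨0, 0, -1, 0⟩, ⟨1, 0, -1, 0⟩, ⟨1, 1, -1, 0⟩]

@[simp] lemma Pi_x0 : Pi (x 0) = ⟨0, 0, -1, 0⟩ := by simp [Pi, x]
@[simp] lemma Pi_x1 : Pi (x 1) = ⟨1, 0, -1, 0⟩ := by simp [Pi, x]
@[simp] lemma Pi_x2 : Pi (x 2) = ⟨1, 1, -1, 0⟩ := by simp [Pi, x]

/-- Parity preserving automorphisms. -/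
def ParPres (φ : MulAut F3) : Prop := ∀ g, (Pi (φ g)).e = (Pi g).e

lemma parPres_of (φ : MulAut F3) (h : ∀ i, (Pi (φ (x i))).e = -1) : ParPres φ := by
  have : ((E.sgn.comp Pi).comp φ.toMonoidHom) = E.sgn.comp Pi := by
    ext i
    have hi : (Pi (φ (FreeGroup.of i))).e = -1 := h i
    have hi' : (Pi (FreeGroup.of i)).e = -1 := by
      fin_cases i
      · exact congrArg E.e Pi_x0
      · exact congrArg E.e Pi_x1
      · exact congrArg E.e Pi_x2
    change (((Pi (φ (FreeGroup.of i))).e : ℤˣ) : ℤ) = ((Pi (FreeGroup.of i)).e : ℤ)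
    rw [hi, hi']
  intro g
  exact congrArg (fun f => f g) this

lemma ParPres.mul {φ ψ : MulAut F3} (h : ParPres φ) (h' : ParPres ψ) : ParPres (φ * ψ) := by
  intro g
  rw [MulAut.mul_apply, h, h']

lemma ParPres.one : ParPres 1 := fun _ => rfl

lemma ParPres.inv {φ : MulAut F3} (h : ParPres φ) : ParPres φ⁻¹ := by
  intro g
  rw [← h (φ⁻¹ g), MulAut.apply_inv_self]

lemma ParPres.conj (g : F3) : ParPres (MulAut.conj g) := by
  intro h
  simp [mul_comm, ← mul_assoc]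

lemma per_e (i : Fin 4) : (Pi (per i)).e = -1 := by
  fin_cases i <;> simp [per]

lemma pow_unit_e (g : E) (hg : g.e = -1) (ε : ℤˣ) : (g ^ (ε : ℤ)).e = -1 := by
  rcases Int.units_eq_one_or ε with h | h <;> simp [h, hg]

lemma pow_unit_z (g : E) (ε : ℤˣ) : (g ^ (ε : ℤ)).z = ε * g.z := by
  rcases Int.units_eq_one_or ε with h | h <;> simp [h]

lemma Geometric.parPres {ε : ℤˣ} {φ : MulAut F3} (h : Geometric ε φ) : ParPres φ := by
  obtain ⟨σ, hσ⟩ := h
  have key : ∀ i, (Pi (φ (per i))).e = -1 := by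
    intro i
    obtain ⟨c, hc⟩ := isConj_iff.1 (hσ i).symm
    rw [← hc, map_mul, map_mul, map_inv, map_zpow]
    have h1 := pow_unit_e (Pi (per (σ i))) (per_e _) ε
    simp only [E.mul_e, E.inv_e, h1]
    rcases Int.units_eq_one_or (Pi c).e with h | h <;> simp [h]
  apply parPres_of
  intro i
  fin_cases i
  · exact key 0
  · exact key 1
  · exact key 2

/-- The linear part of the affine action of `φ`. -/
def lin (φ : MulAut F3) : Matrix (Fin 2) (Fin 2) ℤ :=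
  !![(Pi (φ (x 1))).b1 - (Pi (φ (x 0))).b1, (Pi (φ (x 2))).b1 - (Pi (φ (x 1))).b1;
     (Pi (φ (x 1))).b2 - (Pi (φ (x 0))).b2, (Pi (φ (x 2))).b2 - (Pi (φ (x 1))).b2]

lemma lin_aff {φ : MulAut F3} (h : ParPres φ) (g : F3) :
    2 * (Pi (φ g)).b1 = 2 * (lin φ 0 0 * (Pi g).b1 + lin φ 0 1 * (Pi g).b2) +
        (1 - (Pi g).e) * (Pi (φ (x 0))).b1 ∧
    2 * (Pi (φ g)).b2 = 2 * (lin φ 1 0 * (Pi g).b1 + lin φ 1 1 * (Pi g).b2) +
        (1 - (Pi g).e) * (Pi (φ (x 0))).b2 := by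
  have hgen : ∀ i : Fin 3, 2 * (Pi (φ (x i))).b1 = 2 * (lin φ 0 0 * (Pi (x i)).b1 +
        lin φ 0 1 * (Pi (x i)).b2) + (1 - (Pi (x i)).e) * (Pi (φ (x 0))).b1 ∧
      2 * (Pi (φ (x i))).b2 = 2 * (lin φ 1 0 * (Pi (x i)).b1 +
        lin φ 1 1 * (Pi (x i)).b2) + (1 - (Pi (x i)).e) * (Pi (φ (x 0))).b2 := by
    intro i
    fin_cases i
    · constructor <;> simp [lin]
    · constructor <;> simp [lin] <;> ring
    · constructor <;> simp [lin] <;> ring
  induction g using FreeGroup.induction_on with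
  | C1 => simp
  | of i => exact hgen i
  | inv_of i _ =>
    obtain ⟨h1, h2⟩ := hgen i
    have he : (Pi (φ (x i))).e = -1 := by
      rw [h]
      fin_cases i
      · exact congrArg E.e Pi_x0
      · exact congrArg E.e Pi_x1
      · exact congrArg E.e Pi_x2
    have he' : (Pi (x i)).e = -1 := by rw [← h]; exact he
    change 2 * (Pi (φ (x i)⁻¹)).b1 = 2 * (lin φ 0 0 * (Pi (x i)⁻¹).b1 +
        lin φ 0 1 * (Pi (x i)⁻¹).b2) + (1 - (Pi (x i)⁻¹).e) * (Pi (φ (x 0))).b1 ∧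
      2 * (Pi (φ (x i)⁻¹)).b2 = 2 * (lin φ 1 0 * (Pi (x i)⁻¹).b1 +
        lin φ 1 1 * (Pi (x i)⁻¹).b2) + (1 - (Pi (x i)⁻¹).e) * (Pi (φ (x 0))).b2
    simp only [map_inv, E.inv_b1, E.inv_b2, E.inv_e, he, he'] at h1 h2 ⊢
    constructor
    · push_cast at h1 ⊢; linarith
    · push_cast at h2 ⊢; linarith
  | mul g k hg hk =>
    obtain ⟨g1, g2⟩ := hg
    obtain ⟨k1, k2⟩ := hk
    have hu := E.usq (Pi g).e
    simp only [map_mul, E.mul_b1, E.mul_b2, E.mul_e, h g, Units.val_mul]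
    constructor
    · linear_combination g1 + ((Pi g).e : ℤ) * k1
    · linear_combination g2 + ((Pi g).e : ℤ) * k2

lemma xe (i : Fin 3) : (Pi (x i)).e = -1 := by
  fin_cases i
  · exact congrArg E.e Pi_x0
  · exact congrArg E.e Pi_x1
  · exact congrArg E.e Pi_x2

lemma lin_mul {φ ψ : MulAut F3} (h : ParPres φ) (h' : ParPres ψ) :
    lin (φ * ψ) = lin φ * lin ψ := by
  have key : ∀ i : Fin 3,
      (Pi (φ (ψ (x i)))).b1 = lin φ 0 0 * (Pi (ψ (x i))).b1 + lin φ 0 1 * (Pi (ψ (x i))).b2 +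
        (Pi (φ (x 0))).b1 ∧
      (Pi (φ (ψ (x i)))).b2 = lin φ 1 0 * (Pi (ψ (x i))).b1 + lin φ 1 1 * (Pi (ψ (x i))).b2 +
        (Pi (φ (x 0))).b2 := by
    intro i
    obtain ⟨h1, h2⟩ := lin_aff h (ψ (x i))
    have he : (Pi (ψ (x i))).e = -1 := by rw [h', xe]
    rw [he] at h1 h2
    push_cast at h1 h2
    constructor <;> linarith
  obtain ⟨a0, b0⟩ := key 0
  obtain ⟨a1, b1⟩ := key 1
  obtain ⟨a2, b2⟩ := key 2
  have e : lin (φ * ψ) = !![(Pi (φ (ψ (x 1)))).b1 - (Pi (φ (ψ (x 0)))).b1,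
      (Pi (φ (ψ (x 2)))).b1 - (Pi (φ (ψ (x 1)))).b1;
     (Pi (φ (ψ (x 1)))).b2 - (Pi (φ (ψ (x 0)))).b2,
      (Pi (φ (ψ (x 2)))).b2 - (Pi (φ (ψ (x 1)))).b2] := rfl
  rw [e, a0, a1, a2, b0, b1, b2]
  have f00 : lin ψ 0 0 = (Pi (ψ (x 1))).b1 - (Pi (ψ (x 0))).b1 := rfl
  have f01 : lin ψ 0 1 = (Pi (ψ (x 2))).b1 - (Pi (ψ (x 1))).b1 := rfl
  have f10 : lin ψ 1 0 = (Pi (ψ (x 1))).b2 - (Pi (ψ (x 0))).b2 := rfl
  have f11 : lin ψ 1 1 = (Pi (ψ (x 2))).b2 - (Pi (ψ (x 1))).b2 := rfl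
  ext i j
  fin_cases i <;> fin_cases j <;>
    simp [Matrix.mul_apply, Fin.sum_univ_two, f00, f01, f10, f11] <;> ring

lemma lin_one : lin 1 = 1 := by
  ext i j
  fin_cases i <;> fin_cases j <;> simp [lin]

lemma lin_pow {φ : MulAut F3} (h : ParPres φ) (k : ℕ) :
    ParPres (φ ^ k) ∧ lin (φ ^ k) = lin φ ^ k := by
  induction k with
  | zero => exact ⟨by simpa using ParPres.one, by simp [lin_one]⟩
  | succ k ih =>
    rw [pow_succ]
    exact ⟨ih.1.mul h, by rw [lin_mul ih.1 h, ih.2, pow_succ]⟩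

lemma lin_conj (g : F3) : lin (MulAut.conj g) = 1 ∨ lin (MulAut.conj g) = -1 := by
  have key : ∀ i : Fin 3, (Pi (MulAut.conj g (x i))).b1 = 2 * (Pi g).b1 + (Pi g).e * (Pi (x i)).b1 ∧
      (Pi (MulAut.conj g (x i))).b2 = 2 * (Pi g).b2 + (Pi g).e * (Pi (x i)).b2 := by
    intro i
    rw [MulAut.conj_apply, map_mul, map_mul, map_inv]
    exact ⟨E.conj_b1 _ _ (xe i), E.conj_b2 _ _ (xe i)⟩
  obtain ⟨a0, b0⟩ := key 0
  obtain ⟨a1, b1⟩ := key 1
  obtain ⟨a2, b2⟩ := key 2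
  rcases Int.units_eq_one_or (Pi g).e with he | he
  · left
    unfold lin
    rw [a0, a1, a2, b0, b1, b2, he]
    ext i j
    fin_cases i <;> fin_cases j <;> simp
  · right
    unfold lin
    rw [a0, a1, a2, b0, b1, b2, he]
    ext i j
    fin_cases i <;> fin_cases j <;> simp

lemma lin_inv {φ : MulAut F3} (h : ParPres φ) : lin φ * lin φ⁻¹ = 1 ∧ lin φ⁻¹ * lin φ = 1 := by
  rw [← lin_mul h h.inv, ← lin_mul h.inv h]
  simp [lin_one]

/-- The determinant of the linear part is the sign of the mapping class. -/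
lemma Geometric.det {ε : ℤˣ} {φ : MulAut F3} (h : Geometric ε φ) : (lin φ).det = ε := by
  have hp := h.parPres
  obtain ⟨σ, hσ⟩ := h
  have key : ∀ i, (Pi (φ (per i))).z = ε * (Pi (per (σ i))).z := by
    intro i
    obtain ⟨c, hc⟩ := isConj_iff.1 (hσ i).symm
    rw [← hc, map_mul, map_mul, map_inv, map_zpow,
      E.conj_z _ _ (pow_unit_e _ (per_e _) ε), pow_unit_z]
  have hsum : ∑ i, (Pi (φ (per i))).z = ε * ∑ i, (Pi (per i)).z := by
    rw [Finset.sum_congr rfl (fun i _ => key i), ← Finset.mul_sum,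
      Equiv.sum_comp σ (fun i => (Pi (per i)).z)]
  have e3 : ∀ ψ : MulAut F3, ParPres ψ → ∑ i, (Pi (ψ (per i))).z = (lin ψ).det := by
    intro ψ hψ
    have := E.inv_mul3_z (Pi (ψ (x 0))) (Pi (ψ (x 1))) (Pi (ψ (x 2))) (by rw [hψ, xe])
      (by rw [hψ, xe]) (by rw [hψ, xe])
    rw [Fin.sum_univ_four]
    have p0 : per 0 = x 0 := rfl
    have p1 : per 1 = x 1 := rfl
    have p2 : per 2 = x 2 := rfl
    have p3 : per 3 = (x 0 * x 1 * x 2)⁻¹ := rfl
    rw [p0, p1, p2, p3, map_inv, map_mul, map_mul, map_inv, map_mul, map_mul]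
    rw [lin, Matrix.det_fin_two_of]
    linarith
  rw [e3 φ hp] at hsum
  have h1 : ∑ i, (Pi (per i)).z = 1 := by
    have := e3 1 ParPres.one
    rw [lin_one, Matrix.det_one] at this
    simpa using this
  rw [hsum, h1, mul_one]

lemma twist0_x0 : twist0 (x 0) = curve0 * x 0 * curve0⁻¹ := twistHom_x0
lemma twist0_x1 : twist0 (x 1) = curve0 * x 1 * curve0⁻¹ := twistHom_x1
lemma twist0_x2 : twist0 (x 2) = x 2 := twistHom_x2

lemma parPres_twist0 : ParPres twist0 := by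
  apply parPres_of
  intro i
  fin_cases i
  · change (Pi (twist0 (x 0))).e = -1
    rw [twist0_x0]; simp [curve0]
  · change (Pi (twist0 (x 1))).e = -1
    rw [twist0_x1]; simp [curve0]
  · change (Pi (twist0 (x 2))).e = -1
    rw [twist0_x2]; simp

lemma lin_twist0 : lin twist0 = T 1 0 := by
  unfold lin
  rw [twist0_x0, twist0_x1, twist0_x2]
  ext i j
  fin_cases i <;> fin_cases j <;> simp [curve0, T, nil]

/-- The linear part of a Dehn twist. -/
lemma lin_twist {φ : MulAut F3} (h : Geometric 1 φ) :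
    ParPres (φ * twist0 * φ⁻¹) ∧
      lin (φ * twist0 * φ⁻¹) = T (lin φ 0 0) (lin φ 1 0) := by
  have hp := h.parPres
  have hd := h.det
  refine ⟨(hp.mul parPres_twist0).mul hp.inv, ?_⟩
  rw [lin_mul (hp.mul parPres_twist0) hp.inv, lin_mul hp parPres_twist0, lin_twist0]
  have hi := (lin_inv hp).1
  have hadj : lin φ⁻¹ = (lin φ).adjugate := by
    have h1 : (lin φ).adjugate * (lin φ * lin φ⁻¹) = (lin φ).adjugate := by
      rw [hi, Matrix.mul_one]
    rw [← Matrix.mul_assoc, Matrix.adjugate_mul, hd] at h1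
    simpa using h1
  rw [hadj, Matrix.adjugate_fin_two]
  rw [Matrix.det_fin_two] at hd
  simp only [Units.val_one] at hd
  set a := lin φ 0 0
  set b := lin φ 0 1
  set c := lin φ 1 0
  set d := lin φ 1 1
  have hM : lin φ = !![a, b; c, d] := by
    ext i j
    fin_cases i <;> fin_cases j <;> rfl
  have hT0 : T 1 0 = !![1, 2; 0, 1] := by
    ext i j
    fin_cases i <;> fin_cases j <;> simp [T, nil]
  have hT : T a c = !![1 - 2 * a * c, 2 * a ^ 2; -(2 * c ^ 2), 1 + 2 * a * c] := by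
    ext i j
    fin_cases i <;> fin_cases j <;> simp [T, nil] <;> ring
  rw [hM, hT0, hT]
  ext i j
  fin_cases i <;> fin_cases j <;>
    simp [Matrix.mul_apply, Fin.sum_univ_two]
  · linear_combination hd
  · ring
  · ring
  · linear_combination hd

end Pool.Agent.H967R3.Pen
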