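import Mathlib

/-!
# Words in two parabolic matrices never preserve a form of discriminant 13
-/

set_option autoImplicit false

namespace Pool.Agent.H967R3.Pen

open Matrix

/-- An integral binary quadratic form `A s^2 + B s t + C t^2`. -/
@[ext] structure Frm where
  A : ℤ
  B : ℤ
  C : ℤ

/-- Substitution of an integral matrix into a form. -/
def Frm.act (Q : Frm) (M : Matrix (Fin 2) (Fin 2) ℤ) : Frm where
  A := Q.A * M 0 0 ^ 2 + Q.B * M 0 0 * M 1 0 + Q.C * M 1 0 ^ 2
  B := 2 * Q.A * M 0 0 * M 0 1 + Q.B * (M 0 0 * M 1 1 + M 0 1 * M 1 0) + 2 * Q.C * M 1 0 * M 1 1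
  C := Q.A * M 0 1 ^ 2 + Q.B * M 0 1 * M 1 1 + Q.C * M 1 1 ^ 2

/-- The discriminant. -/
def Frm.disc (Q : Frm) : ℤ := Q.B ^ 2 - 4 * Q.A * Q.C

/-- The negative of a form. -/
def Frm.neg (Q : Frm) : Frm := ⟨-Q.A, -Q.B, -Q.C⟩

lemma Frm.act_mul (Q : Frm) (M N : Matrix (Fin 2) (Fin 2) ℤ) :
    Q.act (M * N) = (Q.act M).act N := by
  ext <;> simp [Frm.act, Matrix.mul_apply, Fin.sum_univ_two] <;> ring

lemma Frm.act_one (Q : Frm) : Q.act 1 = Q := by
  ext <;> simp [Frm.act]

lemma Frm.disc_act (Q : Frm) (M : Matrix (Fin 2) (Fin 2) ℤ) :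
    (Q.act M).disc = M.det ^ 2 * Q.disc := by
  simp [Frm.act, Frm.disc, Matrix.det_fin_two]; ring

lemma Frm.neg_act (Q : Frm) (M : Matrix (Fin 2) (Fin 2) ℤ) :
    Q.neg.act M = (Q.act M).neg := by
  ext <;> simp [Frm.act, Frm.neg] <;> ring

lemma Frm.disc_neg (Q : Frm) : Q.neg.disc = Q.disc := by
  simp [Frm.disc, Frm.neg]

/-- A form invariant under a matrix with positive off-diagonal entries has outer coefficients
of opposite signs. -/
lemma Frm.sign {Q : Frm} {M : Matrix (Fin 2) (Fin 2) ℤ} (h : Q.act M = Q) (hd : M.det = 1)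
    (h01 : 0 < M 0 1) (h10 : 0 < M 1 0) (hQ : Q.disc ≠ 0) : Q.A * Q.C < 0 := by
  obtain ⟨A, B, C⟩ := Q
  rw [Matrix.det_fin_two] at hd
  have h1 := congrArg Frm.A h
  have h2 := congrArg Frm.B h
  have h3 := congrArg Frm.C h
  simp only [Frm.act] at h1 h2 h3
  simp only [Frm.disc] at hQ
  simp only
  set p := M 0 0
  set q := M 0 1
  set r := M 1 0
  set s := M 1 1
  have e1 : 2 * (A * q + C * r) = 0 := by
    linear_combination s * h2 - 2 * r * h3 - (2 * A * q + B * s) * hd
  have e1' : A * q = -(C * r) := by linarith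
  have hA : A ≠ 0 := by
    rintro rfl
    have hC : C = 0 := by
      have : C * r = 0 := by linarith
      rcases mul_eq_zero.1 this with h | h
      · exact h
      · omega
    subst hC
    have hB : B * (q * r) = 0 := by
      have : 2 * (B * (q * r)) = 0 := by linear_combination h2 - B * hd
      linarith
    rcases mul_eq_zero.1 hB with h | h
    · subst h; simp at hQ
    · rcases mul_eq_zero.1 h with h | h <;> omega
  have hA2 : 0 < A ^ 2 := by positivity
  have hq : 0 < A ^ 2 * q := mul_pos hA2 h01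
  have : A * C * r = -(A ^ 2 * q) := by linear_combination A * e1'
  by_contra hcon
  push Not at hcon
  nlinarith

/-- The two parabolic matrices in the basis `(v, w)`. -/
def letter (n : ℤ) : Bool → Matrix (Fin 2) (Fin 2) ℤ
  | true => !![1, 2 * n; 0, 1]
  | false => !![1, 0; 2 * n, 1]

/-- Their inverses. -/
def letterInv (n : ℤ) : Bool → Matrix (Fin 2) (Fin 2) ℤ
  | true => !![1, -(2 * n); 0, 1]
  | false => !![1, 0; -(2 * n), 1]

/-- A word in the two matrices. -/
def word (n : ℤ) (l : List Bool) : Matrix (Fin 2) (Fin 2) ℤ := (l.map (letter n)).prod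

lemma word_nil (n : ℤ) : word n [] = 1 := rfl

lemma word_cons (n : ℤ) (y : Bool) (l : List Bool) : word n (y :: l) = letter n y * word n l := by
  simp [word]

lemma word_append (n : ℤ) (l m : List Bool) : word n (l ++ m) = word n l * word n m := by
  simp [word]

lemma word_single (n : ℤ) (y : Bool) : word n [y] = letter n y := by simp [word]

lemma letter_mul_inv (n : ℤ) (y : Bool) : letter n y * letterInv n y = 1 := by
  cases y <;> ext i j <;> fin_cases i <;> fin_cases j <;>
    simp [letter, letterInv, Matrix.mul_apply, Fin.sum_univ_two]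

lemma letterInv_mul (n : ℤ) (y : Bool) : letterInv n y * letter n y = 1 := by
  cases y <;> ext i j <;> fin_cases i <;> fin_cases j <;>
    simp [letter, letterInv, Matrix.mul_apply, Fin.sum_univ_two]

lemma det_letter (n : ℤ) (y : Bool) : (letter n y).det = 1 := by
  cases y <;> simp [letter, Matrix.det_fin_two]

lemma det_letterInv (n : ℤ) (y : Bool) : (letterInv n y).det = 1 := by
  cases y <;> simp [letterInv, Matrix.det_fin_two]

lemma det_word (n : ℤ) (l : List Bool) : (word n l).det = 1 := by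
  induction l with
  | nil => simp [word]
  | cons y l ih => rw [word_cons, Matrix.det_mul, ih, det_letter, one_mul]

lemma word_nonneg {n : ℤ} (hn : 1 ≤ n) (l : List Bool) :
    1 ≤ word n l 0 0 ∧ 1 ≤ word n l 1 1 ∧ 0 ≤ word n l 0 1 ∧ 0 ≤ word n l 1 0 := by
  induction l with
  | nil => simp [word]
  | cons y l ih =>
    obtain ⟨h1, h2, h3, h4⟩ := ih
    rw [word_cons]
    cases y
    · refine ⟨?_, ?_, ?_, ?_⟩ <;>
        simp [letter, Matrix.mul_apply, Fin.sum_univ_two] <;> nlinarith
    · refine ⟨?_, ?_, ?_, ?_⟩ <;>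
        simp [letter, Matrix.mul_apply, Fin.sum_univ_two] <;> nlinarith

lemma word_pos01 {n : ℤ} (hn : 1 ≤ n) {l : List Bool} (h : true ∈ l) : 0 < word n l 0 1 := by
  induction l with
  | nil => simp at h
  | cons y l ih =>
    obtain ⟨h1, h2, h3, h4⟩ := word_nonneg hn l
    rw [word_cons]
    cases y
    · have := ih (by simpa using h)
      simp [letter, Matrix.mul_apply, Fin.sum_univ_two]
      nlinarith
    · simp [letter, Matrix.mul_apply, Fin.sum_univ_two]
      nlinarith

lemma word_pos10 {n : ℤ} (hn : 1 ≤ n) {l : List Bool} (h : false ∈ l) : 0 < word n l 1 0 := by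
  induction l with
  | nil => simp at h
  | cons y l ih =>
    obtain ⟨h1, h2, h3, h4⟩ := word_nonneg hn l
    rw [word_cons]
    cases y
    · simp [letter, Matrix.mul_apply, Fin.sum_univ_two]
      nlinarith
    · have := ih (by simpa using h)
      simp [letter, Matrix.mul_apply, Fin.sum_univ_two]
      nlinarith

lemma sign_word {n : ℤ} (hn : 1 ≤ n) {l : List Bool} (ht : true ∈ l) (hf : false ∈ l) {Q : Frm}
    (hQ : Q.disc ≠ 0) (h : Q.act (word n l) = Q) : Q.A * Q.C < 0 :=
  Q.sign h (det_word n l) (word_pos01 hn ht) (word_pos10 hn hf) hQ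

lemma disc_letter (n : ℤ) (y : Bool) (Q : Frm) : (Q.act (letter n y)).disc = Q.disc := by
  rw [Frm.disc_act, det_letter]; ring

lemma disc_letterInv (n : ℤ) (y : Bool) (Q : Frm) :
    (Q.act (letterInv n y)).disc = Q.disc := by
  rw [Frm.disc_act, det_letterInv]; ring

lemma rot_right (n : ℤ) (y : Bool) (m : List Bool) {Q : Frm}
    (h : Q.act (word n (y :: m)) = Q) :
    (Q.act (letter n y)).act (word n (m ++ [y])) = Q.act (letter n y) := by
  rw [← Frm.act_mul, word_append, word_single, ← Matrix.mul_assoc, ← word_cons, Frm.act_mul, h]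

lemma rot_left (n : ℤ) (y : Bool) (m : List Bool) {Q : Frm}
    (h : Q.act (word n (m ++ [y])) = Q) :
    (Q.act (letterInv n y)).act (word n (y :: m)) = Q.act (letterInv n y) := by
  conv_rhs => rw [← h, ← Frm.act_mul, word_append, word_single, Matrix.mul_assoc,
    letter_mul_inv, Matrix.mul_one]
  rw [← Frm.act_mul, word_cons, ← Matrix.mul_assoc, letterInv_mul, Matrix.one_mul]

/-- The arithmetic heart: the first letter is `true`, the last one `false`, `A > 0`. -/
lemma no_inv_pos {n : ℤ} (hn : 1 ≤ n) (m : List Bool) {Q : Frm} (hd : Q.disc = 13 * n ^ 2)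
    (hA : 0 < Q.A) (h : Q.act (word n (true :: (m ++ [false]))) = Q) : False := by
  have hd0 : Q.disc ≠ 0 := by rw [hd]; positivity
  have hC : Q.A * Q.C < 0 := sign_word hn (by simp) (by simp) hd0 h
  have hC' : Q.C < 0 := by nlinarith
  -- one step to the left
  have hl : (Q.act (letterInv n false)).act (word n (false :: true :: m)) =
      Q.act (letterInv n false) := rot_left n false (true :: m) (by simpa using h)
  have hsl := sign_word hn (by simp) (by simp) (by rw [disc_letterInv]; exact hd0) hl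
  -- one step to the right
  have hr : (Q.act (letter n true)).act (word n ((m ++ [false]) ++ [true])) =
      Q.act (letter n true) := rot_right n true (m ++ [false]) h
  have hsr := sign_word hn (by simp) (by simp) (by rw [disc_letter]; exact hd0) hr
  set Q1 : Frm := Q.act (letter n true) with hQ1
  -- two steps to the right
  obtain ⟨y, m', hm⟩ : ∃ y m', m ++ [false] = y :: m' := by
    cases m with
    | nil => exact ⟨false, [], rfl⟩
    | cons y m => exact ⟨y, m ++ [false], rfl⟩
  have hr2 : (Q1.act (letter n y)).act (word n ((m' ++ [true]) ++ [y])) =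
      Q1.act (letter n y) := by
    apply rot_right n y (m' ++ [true])
    rw [hm] at hr
    simpa using hr
  have hmem : false ∈ ((m' ++ [true]) ++ [y]) := by
    have : false ∈ y :: m' := by rw [← hm]; simp
    simp at this ⊢
    tauto
  have hsr2 := sign_word hn (by simp) hmem (by rw [disc_letter, hQ1, disc_letter]; exact hd0) hr2
  obtain ⟨A, B, C⟩ := Q
  simp only [Frm.disc] at hd
  simp only at hA hC hC'
  have hB2 : B ^ 2 < 13 * n ^ 2 := by nlinarith
  have f1 : Q1 = ⟨A, B + 4 * n * A, C + 2 * n * B + 4 * n ^ 2 * A⟩ := by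
    rw [hQ1]; ext <;> simp [Frm.act, letter] <;> ring
  rw [f1] at hsr hsr2
  simp only at hsr
  have hC1 : C + 2 * n * B + 4 * n ^ 2 * A < 0 := by nlinarith
  have hB12 : (B + 4 * n * A) ^ 2 < 13 * n ^ 2 := by nlinarith
  have hn2 : 0 < n ^ 2 := by positivity
  cases y
  · -- next letter is false
    have hAl : 0 < A - 2 * n * B + 4 * n ^ 2 * C := by
      have e : ((⟨A, B, C⟩ : Frm).act (letterInv n false)).A = A - 2 * n * B + 4 * n ^ 2 * C := by
        simp [Frm.act, letterInv]; ring
      have e' : ((⟨A, B, C⟩ : Frm).act (letterInv n false)).C = C := by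
        simp [Frm.act, letterInv]
      rw [e, e'] at hsl
      nlinarith
    have hA2 : 0 < A + 2 * n * (B + 4 * n * A) + 4 * n ^ 2 * (C + 2 * n * B + 4 * n ^ 2 * A) := by
      simp [Frm.act, letter] at hsr2
      nlinarith
    have hAone : A = 1 := by
      have : A ^ 2 * (16 * n ^ 2) < 52 * n ^ 2 := by nlinarith [sq_nonneg (2 * B + 4 * n * A)]
      have h4 : A ^ 2 < 4 := by nlinarith
      nlinarith
    subst hAone
    have hBneg : B < 0 := by
      by_contra hcon; push Not at hcon; nlinarith
    have hB1pos : 0 < B + 4 * n := by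
      by_contra hcon; push Not at hcon; nlinarith
    have hX2 : 13 * n ^ 4 < (1 - n * B) ^ 2 := by nlinarith
    have hY2 : 13 * n ^ 4 < (n * (B + 4 * n) + 1) ^ 2 := by nlinarith
    have hX : 3 * n ^ 2 < 1 - n * B := by
      by_contra hcon
      push Not at hcon
      have h0 : 0 ≤ 1 - n * B := by nlinarith
      have : (1 - n * B) ^ 2 ≤ (3 * n ^ 2) ^ 2 := pow_le_pow_left₀ h0 hcon 2
      nlinarith [sq_nonneg (n ^ 2)]
    have hY : 3 * n ^ 2 < n * (B + 4 * n) + 1 := by
      by_contra hcon
      push Not at hcon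
      have h0 : 0 ≤ n * (B + 4 * n) + 1 := by nlinarith
      have : (n * (B + 4 * n) + 1) ^ 2 ≤ (3 * n ^ 2) ^ 2 := pow_le_pow_left₀ h0 hcon 2
      nlinarith [sq_nonneg (n ^ 2)]
    nlinarith
  · -- next letter is true
    have hC2 : C + 4 * n * B + 16 * n ^ 2 * A < 0 := by
      simp [Frm.act, letter] at hsr2
      nlinarith
    have hB22 : (B + 8 * n * A) ^ 2 < 13 * n ^ 2 := by nlinarith
    have : A ^ 2 * (64 * n ^ 2) < 52 * n ^ 2 := by nlinarith [sq_nonneg (2 * B + 8 * n * A)]
    have h4 : A ^ 2 < 1 := by nlinarith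
    nlinarith

end Pool.Agent.H967R3.Pen
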